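import Mathlib

set_option autoImplicit false

/-!
# Rainbow labelings of caterpillars with three spine vertices

We prove that for every finite abelian group `A` of exponent `m ≥ 5`, every caterpillar
`C(h₁,h₂,h₃)` of order `|A|` is `A`-rainbow, unless it lies in one of the three families listed in
`Exceptional`.

Idea.  After a translation the middle spine vertex gets the label `0`, and the end vertices of the
spine get labels `a`, `c`.  A labeling then is a choice of a letter for every element of `A`: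
`N` for `0`, `P` for the hairs at the first spine vertex, `Q` for the hairs at the third one, and
`F` for the hairs of the middle vertex and for `a`, `c` themselves.  The edge labels are distinct
exactly when `x ↦ x + step(letter of x)` is injective off `0`, where the steps of `F`, `P`, `Q` are
`0`, `a`, `c` (this is `Key`).  We take `a` in (or equal to a generator of) a cyclic subgroup of
order `m` (in one family `m / 2`), `c` a small multiple of it, and fill the cosets of this subgroup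
by cyclic words; all but at most three cosets are filled by constant words.
-/

namespace Pool.Agent.Results.MP_b97a60_co.SpineThree

/-- The caterpillar `C(h₁,h₂,h₃)`: the spine is `v₁ v₂ v₃` (the vertices `inl 0`, `inl 1`, `inl 2`),
and `h_i` leaves are attached to `v_i`. -/
def caterpillar (h₁ h₂ h₃ : ℕ) : SimpleGraph (Fin 3 ⊕ (Fin h₁ ⊕ Fin h₂ ⊕ Fin h₃)) :=
  SimpleGraph.fromRel fun u v =>
    match u, v with
    | .inl i, .inl j => i.val + 1 = j.val
    | .inl i, .inr (.inl _) => i = 0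
    | .inl i, .inr (.inr (.inl _)) => i = 1
    | .inl i, .inr (.inr (.inr _)) => i = 2
    | .inr _, _ => False

/-- `f` is an `A`-rainbow labeling of the graph `T`: a bijection from the vertices to `A` such that
distinct edges `uv` get distinct labels `f u + f v`. -/
def IsRainbowLabeling {V A : Type*} [AddCommGroup A] (T : SimpleGraph V) (f : V → A) : Prop :=
  Function.Bijective f ∧
    ∀ u v u' v' : V, T.Adj u v → T.Adj u' v' → f u + f v = f u' + f v' → s(u, v) = s(u', v')

/-- The three exceptional families of the question, for `m = exp(A)`. -/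
def Exceptional (m h₁ h₂ h₃ : ℕ) : Prop :=
  (h₂ % m = m - 2 ∧ ((h₁ % m = 0 ∧ h₃ % m = m - 1) ∨ (h₁ % m = m - 1 ∧ h₃ % m = 0))) ∨
  (h₂ = 0 ∧ ((h₁ % m = m - 1 ∧ h₃ % m = m - 2) ∨ (h₁ % m = m - 2 ∧ h₃ % m = m - 1))) ∨
  (h₂ = 1 ∧ ((h₁ % m = m - 1 ∧ h₃ % m = m - 3) ∨ (h₁ % m = m - 3 ∧ h₃ % m = m - 1)))

/-! ### Letters, words and their runs -/

/-- Letters: `N` (no step), `F` (fixed), `P` (step `a`), `Q` (step `c`). -/
inductive Letter
  | N | F | P | Q
  deriving DecidableEq

open Letter

/-- displacement as a natural number -/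
def dsp (f s t : ℕ) : Letter → ℕ
  | N => 0
  | F => f
  | P => s
  | Q => t

/-- run of a word: state is a bit mask of occupied images relative to the current position -/
def run (d : Letter → ℕ) : List Letter → ℕ → Option ℕ
  | [], S => some S
  | l :: w, S =>
    if l = N then run d w (S / 2)
    else if S.testBit (d l) then none
    else run d w ((S ||| 2 ^ (d l)) / 2)

theorem run_append (d : Letter → ℕ) (u v : List Letter) (S : ℕ) :
    run d (u ++ v) S = (run d u S).bind (run d v) := by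
  induction u generalizing S with
  | nil => rfl
  | cons l u ih =>
    simp only [List.cons_append, run]
    split_ifs <;> simp [ih]

theorem run_rep (d : Letter → ℕ) (u : List Letter) (S : ℕ) (h : run d u S = some S) (k : ℕ) :
    run d (List.replicate k u).flatten S = some S := by
  induction k with
  | zero => rfl
  | succ k ih =>
    rw [List.replicate_succ, List.flatten_cons, run_append, h]
    simpa using ih

theorem run_spec (d : Letter → ℕ) (w : List Letter) :
    ∀ (S S' : ℕ), run d w S = some S' →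
      (∀ k k' : ℕ, ∀ l l' : Letter, w[k]? = some l → w[k']? = some l' → l ≠ N → l' ≠ N →
        k + d l = k' + d l' → k = k') ∧
      (∀ k : ℕ, ∀ l : Letter, w[k]? = some l → l ≠ N → S.testBit (k + d l) = false) ∧
      (∀ k : ℕ, ∀ l : Letter, ∀ j : ℕ, w[k]? = some l → l ≠ N → k + d l = w.length + j →
        S'.testBit j = true) ∧
      (∀ j : ℕ, S.testBit (w.length + j) = true → S'.testBit j = true) := by
  induction w with
  | nil =>
    intro S S' h
    simp only [run, Option.some.injEq] at h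
    subst h
    refine ⟨?_, ?_, ?_, ?_⟩
    · intro k k' l l' h; simp at h
    · intro k l h; simp at h
    · intro k l j h; simp at h
    · intro j hj; simpa using hj
  | cons l w ih =>
    intro S S' h
    have key : ∃ S1, run d w S1 = some S' ∧ (∀ j, S.testBit (j + 1) = true → S1.testBit j = true) ∧
        (∀ j, l ≠ N → d l = j + 1 → S1.testBit j = true) ∧
        (l ≠ N → S.testBit (d l) = false) := by
      simp only [run] at h
      by_cases hl : l = N
      · rw [if_pos hl] at h
        refine ⟨S / 2, h, ?_, ?_, ?_⟩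
        · intro j hj; rwa [Nat.testBit_succ] at hj
        · intro j h'; exact absurd hl h'
        · intro h'; exact absurd hl h'
      · rw [if_neg hl] at h
        by_cases hb : S.testBit (d l) = true
        · rw [if_pos hb] at h; exact absurd h (by simp)
        · rw [if_neg hb] at h
          refine ⟨_, h, ?_, ?_, ?_⟩
          · intro j hj
            rw [← Nat.testBit_succ, Nat.testBit_or, hj, Bool.true_or]
          · intro j _ hj
            rw [← Nat.testBit_succ, Nat.testBit_or, hj, Nat.testBit_two_pow_self, Bool.or_true]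
          · intro _; simpa using hb
    obtain ⟨S1, hrun, h1, h2, h3⟩ := key
    obtain ⟨i1, i2, i3, i4⟩ := ih S1 S' hrun
    refine ⟨?_, ?_, ?_, ?_⟩
    · intro k k' x x' hk hk' hx hx' he
      cases k with
      | zero =>
        cases k' with
        | zero => rfl
        | succ k' =>
          exfalso
          simp only [List.getElem?_cons_zero, Option.some.injEq] at hk
          subst hk
          simp only [List.getElem?_cons_succ] at hk'
          have hb := i2 k' x' hk' hx'
          have hb' := h2 (k' + d x') hx (by omega)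
          rw [hb] at hb'
          exact absurd hb' (by simp)
      | succ k =>
        cases k' with
        | zero =>
          exfalso
          simp only [List.getElem?_cons_zero, Option.some.injEq] at hk'
          subst hk'
          simp only [List.getElem?_cons_succ] at hk
          have hb := i2 k x hk hx
          have hb' := h2 (k + d x) hx' (by omega)
          rw [hb] at hb'
          exact absurd hb' (by simp)
        | succ k' =>
          simp only [List.getElem?_cons_succ] at hk hk'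
          have := i1 k k' x x' hk hk' hx hx' (by omega)
          omega
    · intro k x hk hx
      cases k with
      | zero =>
        simp only [List.getElem?_cons_zero, Option.some.injEq] at hk
        subst hk
        simpa using h3 hx
      | succ k =>
        simp only [List.getElem?_cons_succ] at hk
        have hb := i2 k x hk hx
        by_contra hcon
        have hcon' : S.testBit (k + 1 + d x) = true := by simpa using hcon
        have := h1 (k + d x) (by rw [← hcon']; congr 1; omega)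
        rw [hb] at this
        exact absurd this (by simp)
    · intro k x j hk hx he
      cases k with
      | zero =>
        simp only [List.getElem?_cons_zero, Option.some.injEq] at hk
        subst hk
        simp only [List.length_cons] at he
        exact i4 j (h2 (w.length + j) hx (by omega))
      | succ k =>
        simp only [List.getElem?_cons_succ] at hk
        simp only [List.length_cons] at he
        exact i3 k x j hk hx (by omega)
    · intro j hj
      simp only [List.length_cons] at hj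
      refine i4 j (h1 _ ?_)
      rw [← hj]; congr 1; omega

/-- word function -/
def wf (w : List Letter) (x : ℕ) : Letter := w.getD x N

/-- `Valid M f s t W`: the map `x ↦ x + displacement` is injective modulo `M` off the letter `N`. -/
def Valid (M f s t : ℕ) (W : ℕ → Letter) : Prop :=
  ∀ x y, x < M → y < M → W x ≠ N → W y ≠ N →
    (x + dsp f s t (W x)) % M = (y + dsp f s t (W y)) % M → x = y

theorem mod_cases {M u v : ℕ} (hu : u < 2 * M) (hv : v < 2 * M) (h : u % M = v % M) :
    u = v ∨ u = M + v ∨ v = M + u := by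
  rcases Nat.lt_or_ge u M with h1 | h1 <;> rcases Nat.lt_or_ge v M with h2 | h2
  · rw [Nat.mod_eq_of_lt h1, Nat.mod_eq_of_lt h2] at h; omega
  · rw [Nat.mod_eq_of_lt h1, Nat.mod_eq_sub_mod h2, Nat.mod_eq_of_lt (by omega)] at h; omega
  · rw [Nat.mod_eq_of_lt h2, Nat.mod_eq_sub_mod h1, Nat.mod_eq_of_lt (by omega)] at h; omega
  · rw [Nat.mod_eq_sub_mod h1, Nat.mod_eq_sub_mod h2, Nat.mod_eq_of_lt (by omega),
      Nat.mod_eq_of_lt (by omega)] at h; omega

theorem valid_of_run (M f s t : ℕ) (hM : 3 < M) (hf : f ≤ 3) (hs : s ≤ 3) (ht : t ≤ 3)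
    (w : List Letter) (hw : w.length = M) (S : ℕ) (h : run (dsp f s t) w S = some S) :
    Valid M f s t (wf w) := by
  obtain ⟨i1, i2, i3, i4⟩ := run_spec _ w S S h
  have hd : ∀ l, dsp f s t l ≤ 3 := by
    intro l; cases l <;> simp [dsp, hf, hs, ht]
  have hget : ∀ x, x < M → w[x]? = some (wf w x) := by
    intro x hx
    rw [← hw] at hx
    simp [wf, List.getD, hx]
  intro x y hx hy hxN hyN he
  have hx3 := hd (wf w x)
  have hy3 := hd (wf w y)
  rcases mod_cases (by omega) (by omega) he with h1 | h1 | h1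
  · exact i1 x y _ _ (hget x hx) (hget y hy) hxN hyN h1
  · exfalso
    have hb := i3 x (wf w x) (y + dsp f s t (wf w y)) (hget x hx) hxN (by omega)
    rw [i2 y _ (hget y hy) hyN] at hb
    exact absurd hb (by simp)
  · exfalso
    have hb := i3 y (wf w y) (x + dsp f s t (wf w x)) (hget y hy) hyN (by omega)
    rw [i2 x _ (hget x hx) hxN] at hb
    exact absurd hb (by simp)

/-- number of positions below `M` with letter `l` -/
def cnt (M : ℕ) (W : ℕ → Letter) (l : Letter) : ℕ := ((Finset.range M).filter (fun x => W x = l)).card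

theorem cnt_wf (w : List Letter) (l : Letter) : cnt w.length (wf w) l = w.count l := by
  unfold cnt
  have h2 : (w.map (fun y => if y = l then 1 else 0)).sum = w.count l := by
    induction w with
    | nil => rfl
    | cons a w ih =>
      rw [List.map_cons, List.sum_cons, List.count_cons, ih]
      by_cases ha : a = l <;> simp [ha, add_comm]
  rw [Finset.card_filter, Finset.sum_range, ← h2,
    ← Fin.sum_univ_fun_getElem w (fun y => if y = l then 1 else 0)]
  refine Finset.sum_congr rfl fun i _ => ?_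
  have : wf w i = w[i.1] := by simp [wf, List.getD]
  rw [this]

/-- repeated block -/
def rp (k : ℕ) (u : List Letter) : List Letter := (List.replicate k u).flatten

@[simp] theorem rp_length (k : ℕ) (u : List Letter) : (rp k u).length = k * u.length := by
  simp [rp]

@[simp] theorem rp_count (k : ℕ) (u : List Letter) (l : Letter) :
    (rp k u).count l = k * u.count l := by
  induction k with
  | zero => simp [rp]
  | succ k ih =>
    unfold rp at ih ⊢
    rw [List.replicate_succ, List.flatten_cons, List.count_append, ih]; ring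

theorem run_rp (d : Letter → ℕ) (u : List Letter) (S : ℕ) (h : run d u S = some S) (k : ℕ) :
    run d (rp k u) S = some S := run_rep d u S h k

/-- counts of a normal pattern -/
def Nrm (M s t i j : ℕ) : Prop :=
  ∃ W : ℕ → Letter, (∀ x, x < M → W x ≠ N) ∧ Valid M 0 s t W ∧ cnt M W P = i ∧ cnt M W Q = j

/-- counts of a special pattern -/
def Spc (M s t i j : ℕ) : Prop :=
  ∃ W : ℕ → Letter, W 0 = N ∧ (∀ x, 0 < x → x < M → W x ≠ N) ∧
    0 < s ∧ s < M ∧ 0 < t ∧ t < M ∧ s ≠ t ∧ W s = F ∧ W t = F ∧ Valid M 0 s t W ∧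
    cnt M W P = i ∧ cnt M W Q = j

theorem wf_ne_N_of_count (w : List Letter) (h : w.count N = 0) (x : ℕ) (hx : x < w.length) :
    wf w x ≠ N := by
  intro h'
  have : wf w x = w[x] := by simp [wf, List.getD, hx]
  rw [this] at h'
  have hm : N ∈ w := by rw [← h']; exact List.getElem_mem hx
  rw [List.count_eq_zero] at h
  exact h hm

theorem wf_ne_of_count (w : List Letter) (l : Letter) (hl : l ≠ N) (h : w.count l = 0) (x : ℕ) :
    wf w x ≠ l := by
  intro h1
  by_cases hk : x < w.length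
  · have h2 : wf w x = w[x] := by simp [wf, List.getD, hk]
    rw [h2] at h1
    have h3 : l ∈ w := by rw [← h1]; exact List.getElem_mem hk
    rw [List.count_eq_zero] at h
    exact h h3
  · have h2 : wf w x = N := by
      unfold wf; rw [List.getD_eq_default]; omega
    rw [h2] at h1
    exact hl h1.symm

theorem nrm_of_run (M s t : ℕ) (hM : 3 < M) (hs : s ≤ 3) (ht : t ≤ 3) (w : List Letter)
    (hw : w.length = M) (S : ℕ) (h : run (dsp 0 s t) w S = some S) (hN : w.count N = 0) :
    Nrm M s t (w.count P) (w.count Q) := by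
  refine ⟨wf w, fun x hx => wf_ne_N_of_count w hN x (by omega),
    valid_of_run M 0 s t hM (by omega) hs ht w hw S h, ?_, ?_⟩
  · rw [← hw]; exact cnt_wf w P
  · rw [← hw]; exact cnt_wf w Q

theorem spc_of_run (M s t : ℕ) (hM : 3 < M) (hs : s ≤ 3) (ht : t ≤ 3) (hs0 : 0 < s) (ht0 : 0 < t)
    (hst : s ≠ t) (w : List Letter) (hw : w.length + 1 = M) (S : ℕ)
    (h : run (dsp 0 s t) (N :: w) S = some S) (hN : w.count N = 0)
    (hws : wf (N :: w) s = F) (hwt : wf (N :: w) t = F) :
    Spc M s t (w.count P) (w.count Q) := by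
  refine ⟨wf (N :: w), rfl, ?_, hs0, by omega, ht0, by omega, hst, hws, hwt,
    valid_of_run M 0 s t hM (by omega) hs ht (N :: w) (by simpa using hw) S h, ?_, ?_⟩
  · intro x hx hxM
    obtain ⟨y, rfl⟩ : ∃ y, x = y + 1 := ⟨x - 1, by omega⟩
    have := wf_ne_N_of_count w hN y (by omega)
    simpa [wf] using this
  · have := cnt_wf (N :: w) P
    rw [← hw]; simpa using this
  · have := cnt_wf (N :: w) Q
    rw [← hw]; simpa using this

theorem nrm_F (M s t : ℕ) : Nrm M s t 0 0 := by
  refine ⟨fun _ => F, fun x _ => (by decide : F ≠ N), ?_, ?_, ?_⟩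
  · intro x y hx hy _ _ h
    simpa [dsp, Nat.mod_eq_of_lt hx, Nat.mod_eq_of_lt hy] using h
  · simp [cnt]
  · simp [cnt]

theorem nrm_P (M s t : ℕ) : Nrm M s t M 0 := by
  refine ⟨fun _ => P, fun x _ => (by decide : P ≠ N), ?_, ?_, ?_⟩
  · intro x y hx hy _ _ h
    have h' : x ≡ y [MOD M] := Nat.ModEq.add_right_cancel' s h
    exact Nat.ModEq.eq_of_lt_of_lt h' hx hy
  · simp [cnt]
  · simp [cnt]

theorem nrm_Q (M s t : ℕ) : Nrm M s t 0 M := by
  refine ⟨fun _ => Q, fun x _ => (by decide : Q ≠ N), ?_, ?_, ?_⟩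
  · intro x y hx hy _ _ h
    have h' : x ≡ y [MOD M] := Nat.ModEq.add_right_cancel' t h
    exact Nat.ModEq.eq_of_lt_of_lt h' hx hy
  · simp [cnt]
  · simp [cnt]

/-- `k` normal patterns with total counts `i`, `j` -/
inductive Multi (M s t : ℕ) : ℕ → ℕ → ℕ → Prop
  | zero : Multi M s t 0 0 0
  | succ {k i j i' j' : ℕ} : Nrm M s t i j → Multi M s t k i' j' →
      Multi M s t (k + 1) (i + i') (j + j')

/-- a special pattern and `k` normal patterns with total counts `i`, `j` -/
def Real (M s t k i j : ℕ) : Prop :=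
  ∃ i0 j0 i' j', Spc M s t i0 j0 ∧ Multi M s t k i' j' ∧ i0 + i' = i ∧ j0 + j' = j

theorem Real.add {M s t k i j i' j' : ℕ} (h : Real M s t k i j) (h' : Nrm M s t i' j') :
    Real M s t (k + 1) (i + i') (j + j') := by
  obtain ⟨i0, j0, i1, j1, h1, h2, h3, h4⟩ := h
  exact ⟨i0, j0, i' + i1, j' + j1, h1, Multi.succ h' h2, by omega, by omega⟩

theorem Real.fill {M s t k i j : ℕ} (h : Real M s t k i j) (x y z : ℕ) :
    Real M s t (k + x + y + z) (i + x * M) (j + z * M) := by
  have h1 : ∀ x, Real M s t (k + x) (i + x * M) j := by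
    intro x
    induction x with
    | zero => simpa using h
    | succ x ih =>
      have := ih.add (nrm_P M s t)
      have e : i + (x + 1) * M = i + x * M + M := by ring
      rw [e]; exact this
  have h2 : ∀ y, Real M s t (k + x + y) (i + x * M) j := by
    intro y
    induction y with
    | zero => exact h1 x
    | succ y ih =>
      have := ih.add (nrm_F M s t)
      exact this
  induction z with
  | zero => simpa using h2 y
  | succ z ih =>
    have := ih.add (nrm_Q M s t)
    have e : j + (z + 1) * M = j + z * M + M := by ring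
    rw [e]; exact this

/-! ### Concrete patterns -/

theorem run_cons_N (d : Letter → ℕ) (w : List Letter) (S : ℕ) :
    run d (N :: w) S = run d w (S / 2) := by
  simp [run]

theorem nrm2 (M p q : ℕ) (hM : 3 < M) (h : p + 2 * q = M) : Nrm M 1 2 p q := by
  have hr : run (dsp 0 1 2) (rp p [P] ++ rp q [Q, F]) 1 = some 1 := by
    rw [run_append, run_rp _ [P] 1 (by decide)]
    exact run_rp _ [Q, F] 1 (by decide) q
  have := nrm_of_run M 1 2 hM (by omega) (by omega) (rp p [P] ++ rp q [Q, F])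
    (by simp; omega) 1 hr (by simp)
  simpa using this

theorem spc2 (M i j : ℕ) (hM : 3 < M) (h : i + 2 * j + 3 ≤ M) : Spc M 1 2 i j := by
  obtain ⟨k, hk⟩ : ∃ k, M = k + 3 + i + 2 * j := ⟨M - (i + 2 * j + 3), by omega⟩
  set w := [F, F] ++ rp k [F] ++ rp i [P] ++ rp j [Q, F] with hw
  have hF : run (dsp 0 1 2) ([F, F] ++ rp k [F]) 0 = some 0 := by
    rw [run_append, show run (dsp 0 1 2) [F, F] 0 = some 0 by decide]
    exact run_rp _ [F] 0 (by decide) k
  have hr : ∃ S, run (dsp 0 1 2) (N :: w) S = some S := by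
    rcases Nat.eq_zero_or_pos i with hi | hi
    · rcases Nat.eq_zero_or_pos j with hj | hj
      · refine ⟨0, ?_⟩
        subst hi hj
        rw [run_cons_N, hw, List.append_assoc, run_append, hF]
        rfl
      · refine ⟨1, ?_⟩
        obtain ⟨j', rfl⟩ : ∃ j', j = j' + 1 := ⟨j - 1, by omega⟩
        subst hi
        rw [run_cons_N, hw, List.append_assoc, run_append, hF]
        have e : rp 0 [P] ++ rp (j' + 1) [Q, F] = [Q, F] ++ rp j' [Q, F] := by
          simp [rp, List.replicate_succ]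
        rw [e]
        show run (dsp 0 1 2) ([Q, F] ++ rp j' [Q, F]) 0 = some 1
        rw [run_append, show run (dsp 0 1 2) [Q, F] 0 = some 1 by decide]
        exact run_rp _ [Q, F] 1 (by decide) j'
    · refine ⟨1, ?_⟩
      obtain ⟨i', rfl⟩ : ∃ i', i = i' + 1 := ⟨i - 1, by omega⟩
      rw [run_cons_N, hw, List.append_assoc, run_append, hF]
      have e : rp (i' + 1) [P] ++ rp j [Q, F] = [P] ++ (rp i' [P] ++ rp j [Q, F]) := by
        simp [rp, List.replicate_succ]
      rw [e]
      show run (dsp 0 1 2) ([P] ++ (rp i' [P] ++ rp j [Q, F])) 0 = some 1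
      rw [run_append, show run (dsp 0 1 2) [P] 0 = some 1 by decide]
      show run (dsp 0 1 2) (rp i' [P] ++ rp j [Q, F]) 1 = some 1
      rw [run_append, run_rp _ [P] 1 (by decide)]
      exact run_rp _ [Q, F] 1 (by decide) j
  obtain ⟨S, hS⟩ := hr
  have := spc_of_run M 1 2 hM (by omega) (by omega) (by omega) (by omega) (by omega) w
    (by simp [hw]; omega) S hS (by simp [hw]) rfl rfl
  simpa [hw] using this

theorem valid_shift (M : ℕ) (hM : 0 < M) (W : ℕ → Letter) (h : Valid M 1 2 0 W) :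
    Valid M 0 1 (M - 1) W := by
  intro x y hx hy hxN hyN he
  refine h x y hx hy hxN hyN ?_
  have key : ∀ (l : Letter) (x : ℕ), l ≠ N →
      (x + dsp 1 2 0 l) % M = (x + dsp 0 1 (M - 1) l + 1) % M := by
    intro l x hl
    cases l with
    | N => exact absurd rfl hl
    | F => simp [dsp]
    | P => simp [dsp, add_assoc]
    | Q =>
      simp only [dsp]
      have : x + (M - 1) + 1 = x + M := by omega
      rw [this]; simp
  rw [key _ x hxN, key _ y hyN, Nat.add_mod, he, ← Nat.add_mod]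

theorem nrm_neg (M k : ℕ) (hM : 3 < M) (h : 2 * k ≤ M) : Nrm M 1 (M - 1) k k := by
  obtain ⟨r, hr⟩ : ∃ r, M = 2 * k + r := ⟨M - 2 * k, by omega⟩
  have hrun : run (dsp 1 2 0) (rp k [P, Q] ++ rp r [F]) 1 = some 1 := by
    rw [run_append, run_rp _ [P, Q] 1 (by decide)]
    exact run_rp _ [F] 1 (by decide) r
  have hlen : (rp k [P, Q] ++ rp r [F]).length = M := by simp; omega
  refine ⟨wf (rp k [P, Q] ++ rp r [F]), fun x hx => wf_ne_N_of_count _ (by simp) x (by omega),
    valid_shift M (by omega) _ (valid_of_run M 1 2 0 hM (by omega) (by omega) (by omega) _ hlen 1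
      hrun), ?_, ?_⟩
  · conv_lhs => rw [← hlen]
    rw [cnt_wf]; simp
  · conv_lhs => rw [← hlen]
    rw [cnt_wf]; simp

theorem spc_neg (M k : ℕ) (hM : 3 < M) (h : 2 * k + 3 ≤ M) : Spc M 1 (M - 1) k k := by
  obtain ⟨r, hr⟩ : ∃ r, M = 2 * k + 3 + r := ⟨M - (2 * k + 3), by omega⟩
  set w := [N, F] ++ rp k [P, Q] ++ rp r [F] ++ [F] with hw
  have hrun : run (dsp 1 2 0) w 1 = some 1 := by
    rw [hw, run_append, run_append, run_append,
      show run (dsp 1 2 0) [N, F] 1 = some 1 by decide]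
    show ((run (dsp 1 2 0) (rp k [P, Q]) 1).bind _).bind _ = _
    rw [run_rp _ [P, Q] 1 (by decide)]
    show (run (dsp 1 2 0) (rp r [F]) 1).bind _ = _
    rw [run_rp _ [F] 1 (by decide)]
    decide
  have hlen : w.length = M := by simp [hw]; omega
  have hlen' : ([N, F] ++ rp k [P, Q] ++ rp r [F]).length = M - 1 := by simp; omega
  refine ⟨wf w, rfl, ?_, by omega, by omega, by omega, by omega, by omega, rfl, ?_,
    valid_shift M (by omega) _ (valid_of_run M 1 2 0 hM (by omega) (by omega) (by omega) _ hlen 1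
      hrun), ?_, ?_⟩
  · intro x hx hxM
    obtain ⟨y, rfl⟩ : ∃ y, x = y + 1 := ⟨x - 1, by omega⟩
    have e : wf w (y + 1) = wf ([F] ++ rp k [P, Q] ++ rp r [F] ++ [F]) y := by
      simp [wf, hw]
    rw [e]
    refine wf_ne_N_of_count _ (by simp) y ?_
    simp; omega
  · unfold wf
    rw [hw, List.getD_append_right _ _ _ _ (by omega), hlen']
    simp
  · conv_lhs => rw [← hlen]
    rw [cnt_wf]; simp [hw]
  · conv_lhs => rw [← hlen]
    rw [cnt_wf]; simp [hw]

theorem nrm3 (M p q : ℕ) (hM : 3 < M) (h : 2 * p + 3 * q = M) : Nrm M 1 3 p (p + 2 * q) := by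
  have hr : run (dsp 0 1 3) (rp p [P, Q] ++ rp q [Q, F, Q]) 5 = some 5 := by
    rw [run_append, run_rp _ [P, Q] 5 (by decide)]
    exact run_rp _ [Q, F, Q] 5 (by decide) q
  have := nrm_of_run M 1 3 hM (by omega) (by omega) (rp p [P, Q] ++ rp q [Q, F, Q])
    (by simp; omega) 5 hr (by simp)
  have e1 : (rp p [P, Q] ++ rp q [Q, F, Q]).count P = p := by simp
  have e2 : (rp p [P, Q] ++ rp q [Q, F, Q]).count Q = p + 2 * q := by simp; omega
  rwa [e1, e2] at this

/-- special pattern of type A -/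
theorem spc3A (M i j : ℕ) (hM : 3 < M) (h : i + 3 * j + 4 ≤ M) : Spc M 1 3 i j := by
  obtain ⟨k, hk⟩ : ∃ k, M = k + 4 + i + 3 * j := ⟨M - (i + 3 * j + 4), by omega⟩
  set w := [F, F, F] ++ rp k [F] ++ rp i [P] ++ rp j [Q, F, F] with hw
  have hF : run (dsp 0 1 3) ([F, F, F] ++ rp k [F]) 0 = some 0 := by
    rw [run_append, show run (dsp 0 1 3) [F, F, F] 0 = some 0 by decide]
    exact run_rp _ [F] 0 (by decide) k
  have hr : ∃ S, run (dsp 0 1 3) (N :: w) S = some S := by
    rcases Nat.eq_zero_or_pos i with hi | hi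
    · rcases Nat.eq_zero_or_pos j with hj | hj
      · refine ⟨0, ?_⟩
        subst hi hj
        rw [run_cons_N, hw, List.append_assoc, run_append, hF]
        rfl
      · refine ⟨1, ?_⟩
        obtain ⟨j', rfl⟩ : ∃ j', j = j' + 1 := ⟨j - 1, by omega⟩
        subst hi
        rw [run_cons_N, hw, List.append_assoc, run_append, hF]
        have e : rp 0 [P] ++ rp (j' + 1) [Q, F, F] = [Q, F, F] ++ rp j' [Q, F, F] := by
          simp [rp, List.replicate_succ]
        rw [e]
        show run (dsp 0 1 3) ([Q, F, F] ++ rp j' [Q, F, F]) 0 = some 1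
        rw [run_append, show run (dsp 0 1 3) [Q, F, F] 0 = some 1 by decide]
        exact run_rp _ [Q, F, F] 1 (by decide) j'
    · refine ⟨1, ?_⟩
      obtain ⟨i', rfl⟩ : ∃ i', i = i' + 1 := ⟨i - 1, by omega⟩
      rw [run_cons_N, hw, List.append_assoc, run_append, hF]
      have e : rp (i' + 1) [P] ++ rp j [Q, F, F] = [P] ++ (rp i' [P] ++ rp j [Q, F, F]) := by
        simp [rp, List.replicate_succ]
      rw [e]
      show run (dsp 0 1 3) ([P] ++ (rp i' [P] ++ rp j [Q, F, F])) 0 = some 1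
      rw [run_append, show run (dsp 0 1 3) [P] 0 = some 1 by decide]
      show run (dsp 0 1 3) (rp i' [P] ++ rp j [Q, F, F]) 1 = some 1
      rw [run_append, run_rp _ [P] 1 (by decide)]
      exact run_rp _ [Q, F, F] 1 (by decide) j
  obtain ⟨S, hS⟩ := hr
  have := spc_of_run M 1 3 hM (by omega) (by omega) (by omega) (by omega) (by omega) w
    (by simp [hw]; omega) S hS (by simp [hw]) rfl rfl
  simpa [hw] using this

/-- special pattern of type B2 -/
theorem spc3B (M a b c : ℕ) (h : a + 3 * b + 2 * c + 8 = M) :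
    Spc M 1 3 (a + c) (b + c + 3) := by
  set w := [F, Q, F, F] ++ rp a [P] ++ rp b [Q, F, F] ++ [Q, F, Q] ++ rp c [P, Q] with hw
  have hr : run (dsp 0 1 3) (N :: w) 5 = some 5 := by
    rw [run_cons_N, hw, run_append, run_append, run_append, run_append,
      show run (dsp 0 1 3) [F, Q, F, F] (5 / 2) = some 1 by decide]
    show (((run (dsp 0 1 3) (rp a [P]) 1).bind _).bind _).bind _ = _
    rw [run_rp _ [P] 1 (by decide)]
    show ((run (dsp 0 1 3) (rp b [Q, F, F]) 1).bind _).bind _ = _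
    rw [run_rp _ [Q, F, F] 1 (by decide)]
    show (run (dsp 0 1 3) [Q, F, Q] 1).bind _ = _
    rw [show run (dsp 0 1 3) [Q, F, Q] 1 = some 5 by decide]
    exact run_rp _ [P, Q] 5 (by decide) c
  have := spc_of_run M 1 3 (by omega) (by omega) (by omega) (by omega) (by omega) (by omega) w
    (by simp [hw]; omega) 5 hr (by simp [hw]) rfl rfl
  have e1 : w.count P = a + c := by simp [hw]
  have e2 : w.count Q = b + c + 3 := by simp [hw]; omega
  rwa [e1, e2] at this

/-- special pattern of type B1 -/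
theorem spc3C (M a b c : ℕ) (h : a + 3 * b + 2 * c + 8 = M) :
    Spc M 1 3 (a + c + 1) (b + c + 3) := by
  set w := [F, Q, F, F] ++ rp a [P] ++ rp b [Q, F, F] ++ [Q, P, Q] ++ rp c [P, Q] with hw
  have hr : run (dsp 0 1 3) (N :: w) 5 = some 5 := by
    rw [run_cons_N, hw, run_append, run_append, run_append, run_append,
      show run (dsp 0 1 3) [F, Q, F, F] (5 / 2) = some 1 by decide]
    show (((run (dsp 0 1 3) (rp a [P]) 1).bind _).bind _).bind _ = _
    rw [run_rp _ [P] 1 (by decide)]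
    show ((run (dsp 0 1 3) (rp b [Q, F, F]) 1).bind _).bind _ = _
    rw [run_rp _ [Q, F, F] 1 (by decide)]
    show (run (dsp 0 1 3) [Q, P, Q] 1).bind _ = _
    rw [show run (dsp 0 1 3) [Q, P, Q] 1 = some 5 by decide]
    exact run_rp _ [P, Q] 5 (by decide) c
  have := spc_of_run M 1 3 (by omega) (by omega) (by omega) (by omega) (by omega) (by omega) w
    (by simp [hw]; omega) 5 hr (by simp [hw]) rfl rfl
  have e1 : w.count P = a + c + 1 := by simp [hw]; omega
  have e2 : w.count Q = b + c + 3 := by simp [hw]; omega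
  rwa [e1, e2] at this

/-- special pattern of type C -/
theorem spc3D (M a b : ℕ) (h : a + 3 * b + 5 = M) : Spc M 1 3 a (b + 1) := by
  set w := [F, Q, F, F] ++ rp a [P] ++ rp b [Q, F, F] with hw
  have hr : run (dsp 0 1 3) (N :: w) 1 = some 1 := by
    rw [run_cons_N, hw, run_append, run_append,
      show run (dsp 0 1 3) [F, Q, F, F] (1 / 2) = some 1 by decide]
    show (run (dsp 0 1 3) (rp a [P]) 1).bind _ = _
    rw [run_rp _ [P] 1 (by decide)]
    exact run_rp _ [Q, F, F] 1 (by decide) b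
  have := spc_of_run M 1 3 (by omega) (by omega) (by omega) (by omega) (by omega) (by omega) w
    (by simp [hw]; omega) 1 hr (by simp [hw]) rfl rfl
  have e1 : w.count P = a := by simp [hw]
  have e2 : w.count Q = b + 1 := by simp [hw]
  rwa [e1, e2] at this

/-- the extra pattern for `m = 7` -/
theorem spc7 : Spc 7 1 3 1 2 :=
  spc_of_run 7 1 3 (by omega) (by omega) (by omega) (by omega) (by omega) (by omega)
    [F, Q, F, F, P, Q] rfl 4 (by decide) (by decide) rfl rfl

theorem real_of (M s t i0 j0 i1 j1 i j : ℕ) (h0 : Spc M s t i0 j0) (h1 : Nrm M s t i1 j1)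
    (hi : i0 + i1 = i) (hj : j0 + j1 = j) : Real M s t 1 i j :=
  ⟨i0, j0, i1 + 0, j1 + 0, h0, Multi.succ h1 Multi.zero, by omega, by omega⟩

theorem real2_1 (M i j : ℕ) (hM : 3 < M) (hi : i ≤ M) (h1 : M ≤ i + 2 * j)
    (h2 : i + 2 * j + 3 ≤ 2 * M) (h3 : 1 ≤ i ∨ M % 2 = 0) : Real M 1 2 1 i j := by
  obtain ⟨q, hq⟩ : ∃ q, q = (M - i + 1) / 2 := ⟨_, rfl⟩
  obtain ⟨p, hp⟩ : ∃ p, p = M - 2 * q := ⟨_, rfl⟩
  refine real_of M 1 2 (i - p) (j - q) p q i j (spc2 M _ _ hM ?_) (nrm2 M p q hM ?_) ?_ ?_ <;> omega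

theorem real2_2 (M i j : ℕ) (hM : 3 < M) (hi : i ≤ M) (hi2 : 2 ≤ i) (h1 : 2 * M ≤ i + 2 * j)
    (h2 : i + 2 * j + 3 ≤ 3 * M) : Real M 1 2 2 i j := by
  obtain ⟨p1, hp1⟩ : ∃ p, p = M % 2 := ⟨_, rfl⟩
  obtain ⟨p2, hp2⟩ : ∃ p, p = 2 * (i / 2) - M % 2 := ⟨_, rfl⟩
  obtain ⟨q1, hq1⟩ : ∃ q, q = (M - p1) / 2 := ⟨_, rfl⟩
  obtain ⟨q2, hq2⟩ : ∃ q, q = (M - p2) / 2 := ⟨_, rfl⟩
  have r1 : Real M 1 2 1 (i - p2) (j - q2) :=
    real_of M 1 2 (i - p2 - p1) (j - q2 - q1) p1 q1 _ _ (spc2 M _ _ hM (by omega))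
      (nrm2 M p1 q1 hM (by omega)) (by omega) (by omega)
  have r2 := r1.add (nrm2 M p2 q2 hM (by omega))
  have e1 : i - p2 + p2 = i := by omega
  have e2 : j - q2 + q2 = j := by omega
  rwa [e1, e2] at r2

theorem real_neg (M i : ℕ) (hM : 4 < M) (hi : i + 2 ≤ M) : Real M 1 (M - 1) 1 i i := by
  obtain ⟨k, hk⟩ : ∃ k, k = min i (M / 2) := ⟨_, rfl⟩
  refine real_of M 1 (M - 1) (i - k) (i - k) k k i i (spc_neg M _ (by omega) ?_)
    (nrm_neg M k (by omega) ?_) ?_ ?_ <;> omega

/-- `β < min`, type T1 -/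
theorem real3A (m i j be de : ℕ) (hm : 5 ≤ m) (hsum : i + j + be + 3 = 2 * m) (hde : i = j + de)
    (h1 : m ≤ 2 * be + de + 2) (h2 : m ≤ 2 * j) : Real m 1 3 1 i j := by
  obtain ⟨q, hq⟩ : ∃ q, q = m % 2 := ⟨_, rfl⟩
  obtain ⟨p, hp⟩ : ∃ p, p = (m - 3 * q) / 2 := ⟨_, rfl⟩
  obtain ⟨j0, hj0⟩ : ∃ j0, j0 = (2 * j - m - q) / 2 := ⟨_, rfl⟩
  refine real_of m 1 3 (i - p) j0 p (p + 2 * q) i j (spc3A m _ _ (by omega) ?_)
    (nrm3 m p q (by omega) ?_) ?_ ?_ <;> omega

/-- choice of `q` -/
theorem exists_q (m x : ℕ) (hm : 5 ≤ m) (hx : x % 2 = m % 2) :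
    ∃ q, q ≤ x ∧ 3 * q ≤ m ∧ q % 2 = m % 2 ∧ (q = x ∨ m ≤ 3 * q + 4) := by
  by_cases h : 3 * x ≤ m
  · exact ⟨x, le_rfl, h, hx, Or.inl rfl⟩
  · by_cases h2 : (m / 3) % 2 = m % 2
    · exact ⟨m / 3, by omega, by omega, h2, Or.inr (by omega)⟩
    · refine ⟨m / 3 - 1, by omega, by omega, by omega, Or.inr (by omega)⟩

/-- `β < min`, type T2 : `i < j` -/
theorem real3B (m i j be de : ℕ) (hm : 5 ≤ m) (hsum : i + j + be + 3 = 2 * m) (hde : j = i + de)
    (hj : j < m) (hbe2 : 2 ≤ be) (hpar : be % 2 = m % 2)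
    (h1 : 2 * be + 7 ≤ m + de) : Real m 1 3 1 i j := by
  obtain ⟨q, hq1, hq2, hq3, hq4⟩ := exists_q m (be - 2) hm (by omega)
  obtain ⟨p, hp⟩ : ∃ p, p = (m - 3 * q) / 2 := ⟨_, rfl⟩
  obtain ⟨b, hb⟩ : ∃ b, b = (be - 2 - q) / 2 := ⟨_, rfl⟩
  obtain ⟨a, ha⟩ : ∃ a, a = 2 * be - 1 - 3 * b - de := ⟨_, rfl⟩
  obtain ⟨c, hc⟩ : ∃ c, c = (m + de - 7 - 2 * be) / 2 := ⟨_, rfl⟩
  refine real_of m 1 3 (a + c) (b + c + 3) p (p + 2 * q) i j (spc3B m a b c ?_)
    (nrm3 m p q (by omega) ?_) ?_ ?_ <;> omega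

/-- `β < min`, type T3 : `i < j` -/
theorem real3C (m i j be de : ℕ) (hm : 5 ≤ m) (hsum : i + j + be + 3 = 2 * m) (hde : j = i + de)
    (hj : j < m) (hbe2 : 1 ≤ be) (hpar : be % 2 ≠ m % 2)
    (h1 : 2 * be + 8 ≤ m + de) : Real m 1 3 1 i j := by
  obtain ⟨q, hq1, hq2, hq3, hq4⟩ := exists_q m (be - 1) hm (by omega)
  obtain ⟨p, hp⟩ : ∃ p, p = (m - 3 * q) / 2 := ⟨_, rfl⟩
  obtain ⟨b, hb⟩ : ∃ b, b = (be - 1 - q) / 2 := ⟨_, rfl⟩
  obtain ⟨a, ha⟩ : ∃ a, a = 2 * q + b + 2 - de := ⟨_, rfl⟩
  obtain ⟨c, hc⟩ : ∃ c, c = (m + de - 8 - 2 * be) / 2 := ⟨_, rfl⟩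
  refine real_of m 1 3 (a + c + 1) (b + c + 3) p (p + 2 * q) i j (spc3C m a b c ?_)
    (nrm3 m p q (by omega) ?_) ?_ ?_ <;> omega

/-- type T4: `m = 4 s + 5` -/
theorem real3D (s : ℕ) (hs : 1 ≤ s) : Real (4 * s + 5) 1 3 1 (3 * s + 4) (3 * s + 3) := by
  refine real_of (4 * s + 5) 1 3 (s + 3) (s - 1 + 1) (2 * s + 1) (2 * s + 1 + 2 * 1) _ _
    (spc3D _ _ _ ?_) (nrm3 _ (2 * s + 1) 1 ?_ ?_) ?_ ?_ <;> omega

/-- type T5: half order, `M = 2 s + 2` -/
theorem real_half (s : ℕ) (hs : 1 ≤ s) : Real (2 * s + 2) 1 2 3 (3 * s + 3) (3 * s + 2) := by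
  have r0 : Real (2 * s + 2) 1 2 1 (s - 1 + 2) (0 + s) :=
    real_of _ 1 2 (s - 1) 0 2 s _ _ (spc2 _ _ _ (by omega) (by omega))
      (nrm2 _ 2 s (by omega) (by omega)) rfl rfl
  have r := (r0.add (nrm_Q _ 1 2)).add (nrm_P _ 1 2)
  have e1 : s - 1 + 2 + 0 + (2 * s + 2) = 3 * s + 3 := by omega
  have e2 : 0 + s + (2 * s + 2) + 0 = 3 * s + 2 := by omega
  rwa [e1, e2] at r

theorem real7 : Real 7 1 3 1 3 6 :=
  real_of 7 1 3 1 2 2 (2 + 2 * 1) 3 6 spc7 (nrm3 7 2 1 (by omega) (by omega)) rfl rfl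

/-! ### Assembly in the group -/

theorem multi_family {M s t k i j : ℕ} (h : Multi M s t k i j) :
    ∃ W : Fin k → ℕ → Letter, (∀ κ, (∀ x, x < M → W κ x ≠ N) ∧ Valid M 0 s t (W κ)) ∧
      ∑ κ, cnt M (W κ) P = i ∧ ∑ κ, cnt M (W κ) Q = j := by
  induction h with
  | zero => exact ⟨fun κ => κ.elim0, fun κ => κ.elim0, by simp, by simp⟩
  | @succ k i j i' j' h1 h2 ih =>
    obtain ⟨W, hW1, hW2, hW3⟩ := ih
    obtain ⟨V, hV1, hV2, hV3, hV4⟩ := h1
    refine ⟨Fin.cons V W, ?_, ?_, ?_⟩
    · intro κ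
      refine Fin.cases ?_ ?_ κ
      · exact ⟨by simpa using hV1, by simpa using hV2⟩
      · intro κ'
        simpa using hW1 κ'
    · rw [Fin.sum_univ_succ]; simp [hV3, hW2]
    · rw [Fin.sum_univ_succ]; simp [hV4, hW3]

/-- step in the group -/
def st {A : Type*} [Zero A] (a c : A) : Letter → A
  | N => 0
  | F => 0
  | P => a
  | Q => c

/-- the combinatorial core -/
def Key (A : Type*) [AddCommGroup A] (i j : ℕ) : Prop :=
  ∃ (a c : A) (τ : A → Letter), a ≠ c ∧ (∀ x, τ x = N ↔ x = 0) ∧ τ a = F ∧ τ c = F ∧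
    (∀ x y, x ≠ 0 → y ≠ 0 → x + st a c (τ x) = y + st a c (τ y) → x = y) ∧
    Nat.card {x // τ x = P} = i ∧ Nat.card {x // τ x = Q} = j

/-- swap of the two steps -/
def sw : Letter → Letter
  | N => N
  | F => F
  | P => Q
  | Q => P

theorem Key.symm {A : Type*} [AddCommGroup A] {i j : ℕ} (h : Key A i j) : Key A j i := by
  obtain ⟨a, c, τ, hac, hN, ha, hc, hinj, hi, hj⟩ := h
  have hsw : ∀ l, st c a (sw l) = st a c l := by
    intro l; cases l <;> rfl
  have hN' : ∀ l, sw l = N ↔ l = N := by intro l; cases l <;> simp [sw]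
  have hP' : ∀ l, sw l = P ↔ l = Q := by intro l; cases l <;> simp [sw]
  have hQ' : ∀ l, sw l = Q ↔ l = P := by intro l; cases l <;> simp [sw]
  refine ⟨c, a, fun x => sw (τ x), hac.symm, ?_, ?_, ?_, ?_, ?_, ?_⟩
  · intro x; rw [← hN x]; exact hN' _
  · simp [hc, sw]
  · simp [ha, sw]
  · intro x y hx hy he
    rw [hsw, hsw] at he
    exact hinj x y hx hy he
  · rw [← hj]
    exact Nat.card_congr (Equiv.subtypeEquivRight fun x => hP' _)
  · rw [← hi]
    exact Nat.card_congr (Equiv.subtypeEquivRight fun x => hQ' _)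

open AddSubgroup in
theorem coords {A : Type*} [AddCommGroup A] [Finite A] (g : A) (M : ℕ) (hM : addOrderOf g = M) :
    ∃ e : A ≃ (A ⧸ zmultiples g) × Fin M,
      (∀ x, (e x).1 = QuotientAddGroup.mk x) ∧
      (∀ k : ℕ, ∀ hk : k < M, e (k • g) = (0, ⟨k, hk⟩)) ∧
      (∀ x y : A, ∀ d d' : ℕ, x + d • g = y + d' • g →
        (e x).1 = (e y).1 ∧ ((e x).2.val + d) % M = ((e y).2.val + d') % M) := by
  classical
  have hM0 : 0 < M := by rw [← hM]; exact addOrderOf_pos g
  have hr : ∃ r : (A ⧸ zmultiples g) → A, (∀ κ, (QuotientAddGroup.mk (r κ) : A ⧸ zmultiples g) = κ) ∧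
      r 0 = 0 := by
    refine ⟨Function.update Quotient.out 0 0, ?_, by simp⟩
    intro κ
    by_cases h : κ = 0
    · subst h; simp
    · rw [Function.update_of_ne h]; exact Quotient.out_eq κ
  obtain ⟨r, hr, hr0⟩ := hr
  have hmod : ∀ a b : ℕ, a • g = b • g → a % M = b % M := by
    intro a b h
    rw [nsmul_eq_nsmul_iff_modEq, hM] at h
    exact h
  let f : (A ⧸ zmultiples g) × Fin M → A := fun p => r p.1 + p.2.val • g
  have hf1 : ∀ p, (QuotientAddGroup.mk (f p) : A ⧸ zmultiples g) = p.1 := by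
    intro p
    have : (QuotientAddGroup.mk (f p) : A ⧸ zmultiples g) = QuotientAddGroup.mk (r p.1) := by
      rw [eq_comm, QuotientAddGroup.eq]
      have : -r p.1 + f p = p.2.val • g := by simp [f]
      rw [this]
      exact nsmul_mem (mem_zmultiples g) _
    rw [this, hr]
  have hfinj : Function.Injective f := by
    intro p q h
    have h1 : p.1 = q.1 := by rw [← hf1 p, ← hf1 q, h]
    have h2 : p.2.val • g = q.2.val • g := by
      have h' : r p.1 + p.2.val • g = r q.1 + q.2.val • g := h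
      rw [h1] at h'
      exact add_left_cancel h'
    have h3 := hmod _ _ h2
    rw [Nat.mod_eq_of_lt p.2.isLt, Nat.mod_eq_of_lt q.2.isLt] at h3
    exact Prod.ext h1 (Fin.ext h3)
  have hfsurj : Function.Surjective f := by
    intro x
    have h1 : -r (QuotientAddGroup.mk x) + x ∈ zmultiples g := by
      rw [← QuotientAddGroup.eq, hr]
    rw [← mem_multiples_iff_mem_zmultiples, AddSubmonoid.mem_multiples_iff] at h1
    obtain ⟨k, hk⟩ := h1
    refine ⟨(QuotientAddGroup.mk x, ⟨k % M, Nat.mod_lt _ hM0⟩), ?_⟩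
    show r (QuotientAddGroup.mk x) + (k % M) • g = x
    have : (k % M) • g = k • g := by
      rw [nsmul_eq_nsmul_iff_modEq, hM]; exact Nat.mod_modEq k M
    rw [this, hk]; simp
  let e := (Equiv.ofBijective f ⟨hfinj, hfsurj⟩).symm
  have hef : ∀ p, e (f p) = p := by
    intro p; exact (Equiv.ofBijective f ⟨hfinj, hfsurj⟩).symm_apply_apply p
  have hfe : ∀ x, f (e x) = x := by
    intro x; exact (Equiv.ofBijective f ⟨hfinj, hfsurj⟩).apply_symm_apply x
  refine ⟨e, ?_, ?_, ?_⟩
  · intro x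
    rw [← hf1 (e x), hfe]
  · intro k hk
    rw [← hef (0, ⟨k, hk⟩)]
    congr 1
    simp [f, hr0]
  · intro x y d d' h
    have hx : (QuotientAddGroup.mk (x + d • g) : A ⧸ zmultiples g) = QuotientAddGroup.mk x := by
      rw [eq_comm, QuotientAddGroup.eq]; simp
    have hy : (QuotientAddGroup.mk (y + d' • g) : A ⧸ zmultiples g) = QuotientAddGroup.mk y := by
      rw [eq_comm, QuotientAddGroup.eq]; simp
    have h1 : (e x).1 = (e y).1 := by
      rw [← hf1 (e x), ← hf1 (e y), hfe, hfe, ← hx, ← hy, h]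
    refine ⟨h1, ?_⟩
    apply hmod
    have h2 : r (e x).1 + ((e x).2.val + d) • g = r (e y).1 + ((e y).2.val + d') • g := by
      have ex : r (e x).1 + (e x).2.val • g = x := hfe x
      have ey : r (e y).1 + (e y).2.val • g = y := hfe y
      rw [add_smul, add_smul, ← add_assoc, ← add_assoc, ex, ey, h]
    rw [h1] at h2
    exact add_left_cancel h2

theorem card_letter {A ι : Type*} [Finite A] [Fintype ι] {M : ℕ} (e : A ≃ ι × Fin M)
    (WW : ι → ℕ → Letter) (l : Letter) :
    Nat.card {x // WW (e x).1 (e x).2.val = l} = ∑ κ, cnt M (WW κ) l := by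
  classical
  have h1 : Nat.card {x // WW (e x).1 (e x).2.val = l} =
      Nat.card {p : ι × Fin M // WW p.1 p.2.val = l} :=
    Nat.card_congr (e.subtypeEquiv fun x => Iff.rfl)
  rw [h1, Nat.card_eq_fintype_card, Fintype.card_subtype, Finset.card_filter,
    Fintype.sum_prod_type]
  refine Finset.sum_congr rfl fun κ _ => ?_
  rw [cnt, Finset.card_filter, Finset.sum_range]

open AddSubgroup in
theorem assemble_core {A : Type*} [AddCommGroup A] [Finite A] (g : A) (M s t : ℕ)
    (hM : addOrderOf g = M) (e : A ≃ (A ⧸ zmultiples g) × Fin M)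
    (he2 : ∀ k : ℕ, ∀ hk : k < M, e (k • g) = (0, ⟨k, hk⟩))
    (he3 : ∀ x y : A, ∀ d d' : ℕ, x + d • g = y + d' • g →
        (e x).1 = (e y).1 ∧ ((e x).2.val + d) % M = ((e y).2.val + d') % M)
    (WW : (A ⧸ zmultiples g) → ℕ → Letter)
    (hV : ∀ κ, Valid M 0 s t (WW κ))
    (hN : ∀ κ k, k < M → (WW κ k = N ↔ (κ = 0 ∧ k = 0)))
    (hs : s < M) (hsF : WW 0 s = F) (c : A) (hcF : WW (e c).1 (e c).2.val = F)
    (hac : s • g ≠ c) (hct : c = t • g ∨ ∀ κ k, WW κ k ≠ Q) (i j : ℕ)
    (hi : ∀ [Fintype (A ⧸ zmultiples g)], ∑ κ, cnt M (WW κ) P = i)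
    (hj : ∀ [Fintype (A ⧸ zmultiples g)], ∑ κ, cnt M (WW κ) Q = j) : Key A i j := by
  classical
  have hM0 : 0 < M := by rw [← hM]; exact addOrderOf_pos g
  have : Fintype (A ⧸ zmultiples g) := Fintype.ofFinite _
  have e0 : e 0 = (0, ⟨0, hM0⟩) := by
    have := he2 0 hM0
    rwa [zero_smul] at this
  refine ⟨s • g, c, fun x => WW (e x).1 (e x).2.val, hac, ?_, ?_, hcF, ?_, ?_, ?_⟩
  · intro x
    rw [hN _ _ (e x).2.isLt]
    constructor
    · rintro ⟨h1, h2⟩
      apply e.injective
      rw [e0]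
      exact Prod.ext h1 (Fin.ext h2)
    · rintro rfl
      rw [e0]; exact ⟨rfl, rfl⟩
  · show WW (e (s • g)).1 (e (s • g)).2.val = F
    rw [he2 s hs]; exact hsF
  · intro x y hx hy h
    have hst : ∀ z, st (s • g) c (WW (e z).1 (e z).2.val) =
        dsp 0 s t (WW (e z).1 (e z).2.val) • g := by
      intro z
      rcases hct with hct | hct
      · subst hct
        generalize WW (e z).1 (e z).2.val = l
        cases l <;> simp [st, dsp]
      · have := hct (e z).1 (e z).2.val
        revert this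
        generalize WW (e z).1 (e z).2.val = l
        intro hl
        cases l
        · simp [st, dsp]
        · simp [st, dsp]
        · simp [st, dsp]
        · exact absurd rfl hl
    rw [hst, hst] at h
    obtain ⟨h1, h2⟩ := he3 x y _ _ h
    have hxN : WW (e x).1 (e x).2.val ≠ N := by
      rw [Ne, hN _ _ (e x).2.isLt]
      rintro ⟨h3, h4⟩
      apply hx
      apply e.injective
      rw [e0]
      exact Prod.ext h3 (Fin.ext h4)
    have hyN : WW (e y).1 (e y).2.val ≠ N := by
      rw [Ne, hN _ _ (e y).2.isLt]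
      rintro ⟨h3, h4⟩
      apply hy
      apply e.injective
      rw [e0]
      exact Prod.ext h3 (Fin.ext h4)
    rw [← h1] at h2 hyN
    have h3 := hV (e x).1 _ _ (e x).2.isLt (e y).2.isLt hxN hyN h2
    apply e.injective
    exact Prod.ext h1 (Fin.ext h3)
  · rw [card_letter e WW P]; exact hi
  · rw [card_letter e WW Q]; exact hj

open AddSubgroup in
theorem assemble {A : Type*} [AddCommGroup A] [Finite A] (g : A) (M s t k i j : ℕ)
    (hM : addOrderOf g = M) (hcard : Nat.card A = (k + 1) * M) (h : Real M s t k i j) :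
    Key A i j := by
  classical
  obtain ⟨i0, j0, i1, j1, ⟨W0, hW0, hW0', hs0, hs, ht0, ht, hst, hsF, htF, hV0, hP0, hQ0⟩, hmul, hi, hj⟩ := h
  obtain ⟨W, hW, hWP, hWQ⟩ := multi_family hmul
  obtain ⟨e, he1, he2, he3⟩ := coords g M hM
  have : Fintype (A ⧸ zmultiples g) := Fintype.ofFinite _
  have hι : Fintype.card (A ⧸ zmultiples g) = k + 1 := by
    have h1 := Nat.card_congr e
    rw [Nat.card_prod, Nat.card_eq_fintype_card (α := A ⧸ zmultiples g), Nat.card_fin, hcard] at h1
    exact (Nat.eq_of_mul_eq_mul_right (by omega) h1).symm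
  have hι' : Fintype.card {κ : A ⧸ zmultiples g // κ ≠ 0} = k := by
    rw [Fintype.card_subtype_compl, hι]; simp
  let φ := Fintype.equivFinOfCardEq hι'
  let WW : (A ⧸ zmultiples g) → ℕ → Letter := fun κ => if h : κ = 0 then W0 else W (φ ⟨κ, h⟩)
  have hWW0 : WW 0 = W0 := by simp [WW]
  have hWW1 : ∀ κ (h : κ ≠ 0), WW κ = W (φ ⟨κ, h⟩) := by
    intro κ h; simp only [WW]; rw [dif_neg h]
  have hsum : ∀ l, ∑ κ, cnt M (WW κ) l = cnt M W0 l + ∑ κ, cnt M (W κ) l := by
    intro l
    rw [Fintype.sum_eq_add_sum_subtype_ne _ 0, hWW0]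
    congr 1
    rw [← Equiv.sum_comp φ]
    refine Finset.sum_congr rfl fun κ _ => ?_
    rw [hWW1 κ.1 κ.2]
  refine assemble_core g M s t hM e he2 he3 WW ?_ ?_ hs (by rw [hWW0]; exact hsF) (t • g) ?_ ?_
    (Or.inl rfl) i j ?_ ?_
  · intro κ
    by_cases h : κ = 0
    · rw [h, hWW0]; exact hV0
    · rw [hWW1 κ h]; exact (hW _).2
  · intro κ k hk
    by_cases h : κ = 0
    · rw [h, hWW0]
      constructor
      · intro h1
        refine ⟨rfl, ?_⟩
        by_contra h2
        exact hW0' k (by omega) hk h1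
      · rintro ⟨_, rfl⟩; exact hW0
    · rw [hWW1 κ h]
      constructor
      · intro h1; exact absurd h1 ((hW _).1 k hk)
      · rintro ⟨h1, _⟩; exact absurd h1 h
  · rw [he2 t ht, hWW0]; exact htF
  · intro h
    rw [nsmul_eq_nsmul_iff_modEq, hM] at h
    exact hst (Nat.ModEq.eq_of_lt_of_lt h hs ht)
  · intro inst
    rw [← hi, ← hP0, ← hWP, ← hsum P]
    refine Finset.sum_congr ?_ fun _ _ => rfl
    ext; simp
  · intro inst
    rw [← hj, ← hQ0, ← hWQ, ← hsum Q]
    refine Finset.sum_congr ?_ fun _ _ => rfl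
    ext; simp

open AddSubgroup in
theorem assemble_sp {A : Type*} [AddCommGroup A] [Finite A] (g : A) (M x y : ℕ) (hM3 : 3 < M)
    (hM : addOrderOf g = M) (hcard : Nat.card A = (2 + x + y) * M) :
    Key A (M - 2 + x * M) 0 := by
  classical
  obtain ⟨e, he1, he2, he3⟩ := coords g M hM
  have : Fintype (A ⧸ zmultiples g) := Fintype.ofFinite _
  have hι : Fintype.card (A ⧸ zmultiples g) = 2 + x + y := by
    have h1 := Nat.card_congr e
    rw [Nat.card_prod, Nat.card_eq_fintype_card (α := A ⧸ zmultiples g), Nat.card_fin, hcard] at h1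
    exact (Nat.eq_of_mul_eq_mul_right (by omega) h1).symm
  have hι' : Fintype.card {κ : A ⧸ zmultiples g // κ ≠ 0} = x + (y + 1) := by
    rw [Fintype.card_subtype_compl, hι]; simp; omega
  let φ := Fintype.equivFinOfCardEq hι'
  let w := [F] ++ rp (M - 2) [P]
  have hlen : (N :: w).length = M := by simp [w]; omega
  have hrun : run (dsp 0 1 0) (N :: w) 1 = some 1 := by
    obtain ⟨r, hr⟩ : ∃ r, M - 2 = r + 1 := ⟨M - 3, by omega⟩
    have hw : w = [F, P] ++ rp r [P] := by
      simp [w, hr, rp, List.replicate_succ]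
    rw [run_cons_N, hw, run_append, show run (dsp 0 1 0) [F, P] (1 / 2) = some 1 by decide]
    exact run_rp _ [P] 1 (by decide) r
  let W : Fin (x + (y + 1)) → ℕ → Letter := fun κ _ => if κ.val < x then P else F
  let WW : (A ⧸ zmultiples g) → ℕ → Letter :=
    fun κ => if h : κ = 0 then wf (N :: w) else W (φ ⟨κ, h⟩)
  have hWW0 : WW 0 = wf (N :: w) := by simp [WW]
  have hWW1 : ∀ κ (h : κ ≠ 0), WW κ = W (φ ⟨κ, h⟩) := by
    intro κ h; simp only [WW]; rw [dif_neg h]
  have hsum : ∀ l, ∑ κ, cnt M (WW κ) l = cnt M (wf (N :: w)) l + ∑ κ, cnt M (W κ) l := by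
    intro l
    rw [Fintype.sum_eq_add_sum_subtype_ne _ 0, hWW0]
    congr 1
    rw [← Equiv.sum_comp φ]
    refine Finset.sum_congr rfl fun κ _ => ?_
    rw [hWW1 κ.1 κ.2]
  have hcP : cnt M (wf (N :: w)) P = M - 2 := by
    conv_lhs => rw [← hlen]
    rw [cnt_wf]; simp [w]
  have hcQ : cnt M (wf (N :: w)) Q = 0 := by
    conv_lhs => rw [← hlen]
    rw [cnt_wf]; simp [w]
  have hWP : ∑ κ, cnt M (W κ) P = x * M := by
    rw [Fin.sum_univ_add]
    simp [W, cnt]
  have hWQ : ∑ κ, cnt M (W κ) Q = 0 := by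
    rw [Fin.sum_univ_add]
    simp [W, cnt]
  have hWN : ∀ κ k, W κ k ≠ N := by
    intro κ k; simp only [W]; split_ifs <;> simp
  have hWQ' : ∀ κ k, W κ k ≠ Q := by
    intro κ k; simp only [W]; split_ifs <;> simp
  have hWV : ∀ κ, Valid M 0 1 0 (W κ) := by
    intro κ a b ha hb _ _ h
    by_cases hκ : κ.val < x
    · simp only [W, hκ, if_true, dsp] at h
      have h' : a ≡ b [MOD M] := Nat.ModEq.add_right_cancel' 1 h
      exact Nat.ModEq.eq_of_lt_of_lt h' ha hb
    · simp only [W, hκ, if_false, dsp, add_zero] at h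
      rwa [Nat.mod_eq_of_lt ha, Nat.mod_eq_of_lt hb] at h
  let κ1 : {κ : A ⧸ zmultiples g // κ ≠ 0} := φ.symm ⟨x, by omega⟩
  let c : A := e.symm (κ1.1, ⟨0, by omega⟩)
  have hec : e c = (κ1.1, ⟨0, by omega⟩) := e.apply_symm_apply _
  refine assemble_core g M 1 0 hM e he2 he3 WW ?_ ?_ (by omega) (by rw [hWW0]; rfl) c ?_ ?_
    (Or.inr ?_) _ _ ?_ ?_
  · intro κ
    by_cases h : κ = 0
    · rw [h, hWW0]
      exact valid_of_run M 0 1 0 hM3 (by omega) (by omega) (by omega) _ hlen 1 hrun
    · rw [hWW1 κ h]; exact hWV _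
  · intro κ k hk
    by_cases h : κ = 0
    · rw [h, hWW0]
      constructor
      · intro h1
        refine ⟨rfl, ?_⟩
        by_contra h2
        obtain ⟨k', rfl⟩ : ∃ k', k = k' + 1 := ⟨k - 1, by omega⟩
        refine wf_ne_N_of_count w (by simp [w]) k' (by simp at hlen; omega) ?_
        simpa [wf] using h1
      · rintro ⟨_, rfl⟩; rfl
    · rw [hWW1 κ h]
      constructor
      · intro h1; exact absurd h1 (hWN _ k)
      · rintro ⟨h1, _⟩; exact absurd h1 h
  · rw [hec, hWW1 κ1.1 κ1.2]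
    have : φ ⟨κ1.1, κ1.2⟩ = ⟨x, by omega⟩ := φ.apply_symm_apply _
    rw [this]
    simp [W]
  · intro h
    have h1 : e c = (0, ⟨1, by omega⟩) := by rw [← h]; exact he2 1 (by omega)
    rw [hec] at h1
    exact κ1.2 (Prod.ext_iff.1 h1).1
  · intro κ k
    by_cases h : κ = 0
    · rw [h, hWW0]
      exact wf_ne_of_count (N :: w) Q (by decide) (by simp [w]) k
    · rw [hWW1 κ h]; exact hWQ' _ k
  · intro inst
    rw [← hcP, ← hWP, ← hsum P]
    refine Finset.sum_congr ?_ fun _ _ => rfl
    ext; simp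
  · intro inst
    have := hsum Q
    rw [hcQ, hWQ] at this
    refine Eq.trans (Finset.sum_congr ?_ fun _ _ => rfl) this
    ext; simp

/-- The pattern of Jamison and Kinnersley type, for residues with sum `m - 3`. -/
theorem spc1 (m i j b : ℕ) (h : i + b + j + 3 = m) : Spc m (j + 1) (b + j + 2) i j := by
  let W : ℕ → Letter := fun x =>
    if x = 0 then N else if x ≤ j then Q else if x ≤ j + b + 2 then F else P
  have hW0 : W 0 = N := rfl
  have hWQ : ∀ x, 0 < x → x ≤ j → W x = Q := by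
    intro x h1 h2; simp only [W]; rw [if_neg (by omega), if_pos h2]
  have hWF : ∀ x, j < x → x ≤ j + b + 2 → W x = F := by
    intro x h1 h2; simp only [W]; rw [if_neg (by omega), if_neg (by omega), if_pos h2]
  have hWP : ∀ x, j + b + 2 < x → W x = P := by
    intro x h1; simp only [W]; rw [if_neg (by omega), if_neg (by omega), if_neg (by omega)]
  have hcase : ∀ x, x < m → W x ≠ N →
      (0 < x ∧ x ≤ j ∧ dsp 0 (j + 1) (b + j + 2) (W x) = b + j + 2) ∨
      (j < x ∧ x ≤ j + b + 2 ∧ dsp 0 (j + 1) (b + j + 2) (W x) = 0) ∨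
      (j + b + 2 < x ∧ dsp 0 (j + 1) (b + j + 2) (W x) = j + 1) := by
    intro x hx hN
    by_cases h0 : x = 0
    · subst h0; exact absurd hW0 hN
    · by_cases h1 : x ≤ j
      · left; refine ⟨by omega, h1, ?_⟩; rw [hWQ x (by omega) h1]; rfl
      · by_cases h2 : x ≤ j + b + 2
        · right; left; refine ⟨by omega, h2, ?_⟩; rw [hWF x (by omega) h2]; rfl
        · right; right; refine ⟨by omega, ?_⟩; rw [hWP x (by omega)]; rfl
  refine ⟨W, hW0, ?_, by omega, by omega, by omega, by omega, by omega, hWF _ (by omega) (by omega),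
    hWF _ (by omega) (by omega), ?_, ?_, ?_⟩
  · intro x hx hxm
    by_cases h1 : x ≤ j
    · rw [hWQ x hx h1]; decide
    · by_cases h2 : x ≤ j + b + 2
      · rw [hWF x (by omega) h2]; decide
      · rw [hWP x (by omega)]; decide
  · intro x y hx hy hxN hyN he
    rcases hcase x hx hxN with ⟨a1, a2, a3⟩ | ⟨a1, a2, a3⟩ | ⟨a1, a3⟩ <;>
    rcases hcase y hy hyN with ⟨b1, b2, b3⟩ | ⟨b1, b2, b3⟩ | ⟨b1, b3⟩ <;>
    rw [a3, b3] at he <;>
    rcases mod_cases (by omega) (by omega) he with h1 | h1 | h1 <;> omega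
  · have : (Finset.range m).filter (fun x => W x = P) = Finset.Ico (j + b + 3) m := by
      ext x
      simp only [Finset.mem_filter, Finset.mem_range, Finset.mem_Ico]
      constructor
      · rintro ⟨h1, h2⟩
        refine ⟨?_, h1⟩
        by_contra h3
        by_cases h4 : x = 0
        · subst h4; rw [hW0] at h2; exact absurd h2 (by decide)
        · by_cases h5 : x ≤ j
          · rw [hWQ x (by omega) h5] at h2; exact absurd h2 (by decide)
          · rw [hWF x (by omega) (by omega)] at h2; exact absurd h2 (by decide)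
      · rintro ⟨h1, h2⟩
        exact ⟨h2, hWP x (by omega)⟩
    rw [cnt, this, Nat.card_Ico]; omega
  · have : (Finset.range m).filter (fun x => W x = Q) = Finset.Ico 1 (j + 1) := by
      ext x
      simp only [Finset.mem_filter, Finset.mem_range, Finset.mem_Ico]
      constructor
      · rintro ⟨h1, h2⟩
        by_cases h4 : x = 0
        · subst h4; rw [hW0] at h2; exact absurd h2 (by decide)
        · by_cases h5 : x ≤ j
          · omega
          · by_cases h6 : x ≤ j + b + 2
            · rw [hWF x (by omega) (by omega)] at h2; exact absurd h2 (by decide)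
            · rw [hWP x (by omega)] at h2; exact absurd h2 (by decide)
      · rintro ⟨h1, h2⟩
        exact ⟨by omega, hWQ x (by omega) (by omega)⟩
    rw [cnt, this, Nat.card_Ico]; omega

/-! ### From the core to the labeling -/

/-- parent of a non-root vertex (root: the middle spine vertex) -/
def par {h₁ h₂ h₃ : ℕ} : Fin 3 ⊕ (Fin h₁ ⊕ Fin h₂ ⊕ Fin h₃) → Fin 3 ⊕ (Fin h₁ ⊕ Fin h₂ ⊕ Fin h₃)
  | .inl _ => .inl 1
  | .inr (.inl _) => .inl 0
  | .inr (.inr (.inl _)) => .inl 1
  | .inr (.inr (.inr _)) => .inl 2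

theorem adj_par {h₁ h₂ h₃ : ℕ} (u v : Fin 3 ⊕ (Fin h₁ ⊕ Fin h₂ ⊕ Fin h₃))
    (h : (caterpillar h₁ h₂ h₃).Adj u v) :
    (u ≠ .inl 1 ∧ v = par u) ∨ (v ≠ .inl 1 ∧ u = par v) := by
  unfold caterpillar at h
  rw [SimpleGraph.fromRel_adj] at h
  obtain ⟨hne, h⟩ := h
  rcases u with i | (x | (y | z)) <;> rcases v with j | (x' | (y' | z')) <;> simp [par] at h ⊢
  · clear hne
    revert i j
    decide
  all_goals exact h

theorem rainbow_of_key {A : Type*} [AddCommGroup A] [Finite A] {h₁ h₂ h₃ : ℕ} (hk : Key A h₁ h₃)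
    (hcard : Nat.card A = h₁ + h₂ + h₃ + 3) :
    ∃ f : Fin 3 ⊕ (Fin h₁ ⊕ Fin h₂ ⊕ Fin h₃) → A, IsRainbowLabeling (caterpillar h₁ h₂ h₃) f := by
  classical
  have : Fintype A := Fintype.ofFinite _
  obtain ⟨a, c, τ, hac, hN, ha, hc, hinj, hi, hj⟩ := hk
  have ha0 : a ≠ 0 := by
    intro h; rw [← hN a, ha] at h; exact absurd h (by decide)
  have hc0 : c ≠ 0 := by
    intro h; rw [← hN c, hc] at h; exact absurd h (by decide)
  have hτ0 : τ 0 = N := (hN 0).2 rfl
  let TP : Finset A := Finset.univ.filter (fun x => τ x = P)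
  let TQ : Finset A := Finset.univ.filter (fun x => τ x = Q)
  have hTP : TP.card = h₁ := by
    rw [← hi, Nat.card_eq_fintype_card, Fintype.card_subtype]
  have hTQ : TQ.card = h₃ := by
    rw [← hj, Nat.card_eq_fintype_card, Fintype.card_subtype]
  let U : Finset A := TP ∪ TQ ∪ {0, a, c}
  have hU : U.card = h₁ + h₃ + 3 := by
    have h3 : ({0, a, c} : Finset A).card = 3 := by
      rw [Finset.card_eq_three]
      exact ⟨0, a, c, ha0.symm, hc0.symm, hac, rfl⟩
    have d1 : Disjoint TP TQ := by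
      rw [Finset.disjoint_left]
      intro x hx hx'
      simp only [TP, TQ, Finset.mem_filter, Finset.mem_univ, true_and] at hx hx'
      rw [hx] at hx'
      exact absurd hx' (by decide)
    have d2 : Disjoint (TP ∪ TQ) {0, a, c} := by
      rw [Finset.disjoint_left]
      intro x hx hx'
      simp only [TP, TQ, Finset.mem_union, Finset.mem_filter, Finset.mem_univ, true_and,
        Finset.mem_insert, Finset.mem_singleton] at hx hx'
      rcases hx' with rfl | rfl | rfl
      · rw [hτ0] at hx; exact absurd hx (by decide)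
      · rw [ha] at hx; exact absurd hx (by decide)
      · rw [hc] at hx; exact absurd hx (by decide)
    rw [Finset.card_union_of_disjoint d2, Finset.card_union_of_disjoint d1, hTP, hTQ, h3]
  let R : Finset A := Uᶜ
  have hR : R.card = h₂ := by
    rw [Finset.card_compl, hU, ← Nat.card_eq_fintype_card, hcard]; omega
  let eP := (Finset.equivFinOfCardEq hTP).symm
  let eQ := (Finset.equivFinOfCardEq hTQ).symm
  let eR := (Finset.equivFinOfCardEq hR).symm
  let f : Fin 3 ⊕ (Fin h₁ ⊕ Fin h₂ ⊕ Fin h₃) → A := fun v =>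
    match v with
    | .inl i => if i = 0 then a else if i = 1 then 0 else c
    | .inr (.inl x) => (eP x).1
    | .inr (.inr (.inl y)) => (eR y).1
    | .inr (.inr (.inr z)) => (eQ z).1
  have fP : ∀ x, τ (f (.inr (.inl x))) = P := by
    intro x
    have h : (eP x).1 ∈ TP := (eP x).2
    exact (Finset.mem_filter.1 h).2
  have fQ : ∀ z, τ (f (.inr (.inr (.inr z)))) = Q := by
    intro z
    have h : (eQ z).1 ∈ TQ := (eQ z).2
    exact (Finset.mem_filter.1 h).2
  have fR : ∀ y, τ (f (.inr (.inr (.inl y)))) = F ∧ f (.inr (.inr (.inl y))) ≠ a ∧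
      f (.inr (.inr (.inl y))) ≠ c := by
    intro y
    have h := (eR y).2
    have h' : (eR y).1 ∉ U := Finset.mem_compl.1 h
    simp only [U, TP, TQ, Finset.mem_union, Finset.mem_filter, Finset.mem_univ, true_and,
        Finset.mem_insert, Finset.mem_singleton, not_or] at h'
    obtain ⟨⟨k1, k2⟩, k3, k4, k5⟩ := h'
    refine ⟨?_, k4, k5⟩
    show τ (eR y).1 = F
    have k6 : τ (eR y).1 ≠ N := by rw [Ne, hN]; exact k3
    revert k1 k2 k6
    generalize τ (eR y).1 = l
    cases l <;> simp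
  have f0 : f (.inl 0) = a := rfl
  have f1 : f (.inl 1) = 0 := rfl
  have f2 : f (.inl 2) = c := rfl
  have hF : ∀ i : Fin 3, τ (f (.inl i)) ≠ P ∧ τ (f (.inl i)) ≠ Q ∧
      (f (.inl i) = a ∨ f (.inl i) = 0 ∨ f (.inl i) = c) := by
    intro i
    fin_cases i
    · show τ a ≠ P ∧ τ a ≠ Q ∧ (a = a ∨ a = 0 ∨ a = c)
      rw [ha]; simp
    · show τ 0 ≠ P ∧ τ 0 ≠ Q ∧ (0 = a ∨ (0 : A) = 0 ∨ 0 = c)
      rw [hτ0]; simp
    · show τ c ≠ P ∧ τ c ≠ Q ∧ (c = a ∨ c = 0 ∨ c = c)
      rw [hc]; simp
  have hspine : ∀ i j : Fin 3, f (.inl i) = f (.inl j) → i = j := by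
    intro i j h
    fin_cases i <;> fin_cases j
    · rfl
    · exact absurd h ha0
    · exact absurd h hac
    · exact absurd h ha0.symm
    · rfl
    · exact absurd h hc0.symm
    · exact absurd h hac.symm
    · exact absurd h hc0
    · rfl
  have hne_R : ∀ i y, f (.inl i) ≠ f (.inr (.inr (.inl y))) := by
    intro i y h
    obtain ⟨r1, r2, r3⟩ := fR y
    rw [← h] at r1 r2 r3
    rcases (hF i).2.2 with h4 | h4 | h4
    · exact r2 h4
    · rw [h4, hτ0] at r1; exact absurd r1 (by decide)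
    · exact r3 h4
  have finj : Function.Injective f := by
    rintro (i | (x | (y | z))) (j | (x' | (y' | z'))) h
    · rw [hspine i j h]
    · exact absurd (by rw [h]; exact fP x') (hF i).1
    · exact absurd h (hne_R i y')
    · exact absurd (by rw [h]; exact fQ z') (hF i).2.1
    · exact absurd (by rw [← h]; exact fP x) (hF j).1
    · have : eP x = eP x' := Subtype.ext h
      rw [eP.injective this]
    · have h1 := fP x; rw [h, (fR y').1] at h1; exact absurd h1 (by decide)
    · have h1 := fP x; rw [h, fQ z'] at h1; exact absurd h1 (by decide)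
    · exact absurd h.symm (hne_R j y)
    · have h1 := fP x'; rw [← h, (fR y).1] at h1; exact absurd h1 (by decide)
    · have : eR y = eR y' := Subtype.ext h
      rw [eR.injective this]
    · have h1 := fQ z'; rw [← h, (fR y).1] at h1; exact absurd h1 (by decide)
    · exact absurd (by rw [← h]; exact fQ z) (hF j).2.1
    · have h1 := fQ z; rw [h, fP x'] at h1; exact absurd h1 (by decide)
    · have h1 := fQ z; rw [h, (fR y').1] at h1; exact absurd h1 (by decide)
    · have : eQ z = eQ z' := Subtype.ext h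
      rw [eQ.injective this]
  have hpar : ∀ w, w ≠ .inl 1 → f w + f (par w) = f w + st a c (τ (f w)) := by
    intro w hw
    congr 1
    rcases w with i | (x | (y | z))
    · show f (.inl 1) = _
      rw [f1]
      fin_cases i
      · show (0 : A) = st a c (τ a)
        rw [ha]; rfl
      · exact absurd rfl hw
      · show (0 : A) = st a c (τ c)
        rw [hc]; rfl
    · rw [fP]; rfl
    · rw [(fR y).1]; rfl
    · rw [fQ]; rfl
  have hne0 : ∀ w, w ≠ .inl 1 → f w ≠ 0 := by
    intro w hw h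
    rw [← f1] at h
    exact hw (finj h)
  have hchild : ∀ w w', w ≠ .inl 1 → w' ≠ .inl 1 → f w + f (par w) = f w' + f (par w') → w = w' := by
    intro w w' hw hw' h
    rw [hpar w hw, hpar w' hw'] at h
    exact finj (hinj _ _ (hne0 w hw) (hne0 w' hw') h)
  refine ⟨f, ?_, ?_⟩
  · rw [Fintype.bijective_iff_injective_and_card]
    refine ⟨finj, ?_⟩
    rw [← Nat.card_eq_fintype_card (α := A), hcard]
    simp; omega
  · intro u v u' v' huv huv' h
    rcases adj_par u v huv with ⟨h1, rfl⟩ | ⟨h1, rfl⟩ <;>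
    rcases adj_par u' v' huv' with ⟨h2, rfl⟩ | ⟨h2, rfl⟩
    · rw [hchild u u' h1 h2 h]
    · rw [add_comm (f (par v')) (f v')] at h
      rw [hchild u v' h1 h2 h]; exact Sym2.eq_swap
    · rw [add_comm (f (par v)) (f v)] at h
      rw [hchild v u' h1 h2 h]; exact Sym2.eq_swap
    · rw [add_comm (f (par v)) (f v), add_comm (f (par v')) (f v')] at h
      rw [hchild v v' h1 h2 h]

theorem key_of_real {A : Type*} [AddCommGroup A] [Finite A] (g : A) (m s t k i j x y z : ℕ)
    (hM : addOrderOf g = m) (h : Real m s t k i j)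
    (hcard : Nat.card A = (k + 1 + x + y + z) * m) : Key A (i + x * m) (j + z * m) := by
  refine assemble g m s t (k + x + y + z) _ _ hM ?_ (h.fill x y z)
  rw [hcard]; ring

theorem final_low (m i j be de : ℕ) (hm : 5 ≤ m) (hsum : i + j + be + 3 = 2 * m) (hde : j = i + de)
    (hde1 : 1 ≤ de) (hj : j < m) (hbe : be < i) (h1 : ¬ (be = 1 ∧ j = i + 2))
    (c1 : ¬ (m ≤ 2 * be + de + 2 ∧ m ≤ 2 * i))
    (c2 : ¬ (be % 2 = m % 2 ∧ 2 * be + 7 ≤ m + de))
    (c3 : ¬ (be % 2 ≠ m % 2 ∧ 2 * be + 8 ≤ m + de))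
    (c4 : ¬ (m = 2 * be + 5 ∧ de = 1))
    (c5 : ¬ (m = 2 * be + 4 ∧ de = 1)) : m = 7 ∧ i = 3 ∧ j = 6 := by
  subst hde
  have k1 : m ≤ i + be + 2 := by omega
  rcases Nat.lt_or_ge (2 * be + de + 2) m with g1 | g1
  · -- here `m` is large
    exfalso
    by_cases hp : be % 2 = m % 2
    · have g2 : m + de < 2 * be + 7 := by
        by_contra hcon; exact c2 ⟨hp, by omega⟩
      have g3 : de = 1 := by omega
      subst g3
      have g4 : m = 2 * be + 4 ∨ m = 2 * be + 5 := by omega
      rcases g4 with g4 | g4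
      · exact c5 ⟨g4, rfl⟩
      · exact c4 ⟨g4, rfl⟩
    · have g2 : m + de < 2 * be + 8 := by
        by_contra hcon; exact c3 ⟨hp, by omega⟩
      have g3 : de = 1 ∨ de = 2 := by omega
      rcases g3 with g3 | g3
      · subst g3
        have g4 : m = 2 * be + 4 ∨ m = 2 * be + 5 ∨ m = 2 * be + 6 := by omega
        rcases g4 with g4 | g4 | g4
        · exact c5 ⟨g4, rfl⟩
        · exact c4 ⟨g4, rfl⟩
        · omega
      · subst g3; omega
  · have g2 : 2 * i < m := by
      by_contra hcon; exact c1 ⟨by omega, by omega⟩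
    have g3 : i = be + 1 := by omega
    subst g3
    have g4 : m = 2 * be + 3 := by omega
    subst g4
    by_cases hp : be % 2 = (2 * be + 3) % 2
    · have g5 : (2 * be + 3) + de < 2 * be + 7 := by
        by_contra hcon; exact c2 ⟨hp, by omega⟩
      omega
    · have g5 : (2 * be + 3) + de < 2 * be + 8 := by
        by_contra hcon; exact c3 ⟨hp, by omega⟩
      omega

/-- the case `β < min(α, γ)` -/
theorem real_low (m i j be : ℕ) (hm : 5 ≤ m) (hsum : i + j + be + 3 = 2 * m) (hij : i < j)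
    (hj : j < m) (hbe : be < i) (h0 : be ≠ 0) (h1 : ¬ (be = 1 ∧ j = i + 2)) :
    Real m 1 3 1 i j ∨ Real m 1 3 1 j i ∨
      ∃ s, 1 ≤ s ∧ m = 4 * s + 4 ∧ j = 3 * s + 3 ∧ i = 3 * s + 2 := by
  obtain ⟨de, hde⟩ : ∃ de, j = i + de := ⟨j - i, by omega⟩
  by_cases c1 : m ≤ 2 * be + de + 2 ∧ m ≤ 2 * i
  · exact Or.inr (Or.inl (real3A m j i be de hm (by omega) hde c1.1 c1.2))
  by_cases c2 : be % 2 = m % 2 ∧ 2 * be + 7 ≤ m + de
  · exact Or.inl (real3B m i j be de hm hsum hde hj (by omega) c2.1 c2.2)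
  by_cases c3 : be % 2 ≠ m % 2 ∧ 2 * be + 8 ≤ m + de
  · exact Or.inl (real3C m i j be de hm hsum hde hj (by omega) c3.1 c3.2)
  by_cases c4 : m = 2 * be + 5 ∧ de = 1
  · obtain ⟨s, hs⟩ : ∃ s, be = 2 * s := ⟨be / 2, by omega⟩
    have e1 : m = 4 * s + 5 := by omega
    have e2 : j = 3 * s + 4 := by omega
    have e3 : i = 3 * s + 3 := by omega
    rw [e1, e2, e3]
    exact Or.inr (Or.inl (real3D s (by omega)))
  by_cases c5 : m = 2 * be + 4 ∧ de = 1
  · exact Or.inr (Or.inr ⟨be / 2, by omega, by omega, by omega, by omega⟩)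
  · obtain ⟨e1, e2, e3⟩ := final_low m i j be de hm hsum hde (by omega) hj hbe h1 c1 c2 c3 c4 c5
    rw [e1, e2, e3]
    exact Or.inl real7

/-- one half of the low case -/
theorem key_low {A : Type*} [AddCommGroup A] [Finite A] (g : A) (m i j be x y z : ℕ)
    (hM : addOrderOf g = m) (hm : 5 ≤ m) (hsum : i + j + be + 3 = 2 * m) (hij : i < j)
    (hj : j < m) (hbe : be < i) (h0 : y = 0 → be ≠ 0) (h1 : y = 0 → ¬ (be = 1 ∧ j = i + 2))
    (hcard : Nat.card A = (2 + x + y + z) * m) :
    Key A (i + x * m) (j + z * m) := by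
  by_cases c0 : be = 0
  · have hy : y ≠ 0 := fun h => h0 h c0
    have e1 : i = m - 2 := by omega
    have e2 : j = m - 1 := by omega
    have r := real2_2 m (m - 1) (m - 2) (by omega) (by omega) (by omega) (by omega) (by omega)
    have k := key_of_real g m 1 2 2 _ _ z (y - 1) x hM r (by
      rw [hcard]; congr 1; omega)
    rw [e1, e2]; exact k.symm
  by_cases c1 : be = 1 ∧ j = i + 2
  · have hy : y ≠ 0 := fun h => h1 h c1
    have e1 : i = m - 3 := by omega
    have e2 : j = m - 1 := by omega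
    have r := real2_2 m (m - 3) (m - 1) (by omega) (by omega) (by omega) (by omega) (by omega)
    have k := key_of_real g m 1 2 2 _ _ x (y - 1) z hM r (by
      rw [hcard]; congr 1; omega)
    rw [e1, e2]; exact k
  rcases real_low m i j be hm hsum hij hj hbe c0 c1 with r | r | ⟨s, hs, hm', hj', hi'⟩
  · exact key_of_real g m 1 3 1 _ _ x y z hM r (by rw [hcard])
  · exact (key_of_real g m 1 3 1 _ _ z y x hM r (by rw [hcard]; congr 1; omega)).symm
  · have hg : addOrderOf ((2 : ℕ) • g) = 2 * s + 2 := by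
      rw [addOrderOf_nsmul, hM, hm']
      have : Nat.gcd (4 * s + 4) 2 = 2 := Nat.gcd_eq_right (by omega)
      rw [this]; omega
    have r := real_half s hs
    have k := key_of_real ((2 : ℕ) • g) (2 * s + 2) 1 2 3 _ _ (2 * z) (2 * y) (2 * x) hg r (by
      rw [hcard, hm']; ring)
    have e1 : 3 * s + 3 + 2 * z * (2 * s + 2) = j + z * m := by rw [hj', hm']; ring
    have e2 : 3 * s + 2 + 2 * x * (2 * s + 2) = i + x * m := by rw [hi', hm']; ring
    rw [e1, e2] at k
    exact k.symm

/-- the special case `γ = 0`, `α = m - 2`, `β = m - 1` -/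
theorem key_sp {A : Type*} [AddCommGroup A] [Finite A] (g : A) (m x y z : ℕ)
    (hM : addOrderOf g = m) (hm : 5 ≤ m) (hcard : Nat.card A = (2 + x + y + z) * m) :
    Key A (m - 2 + x * m) (0 + z * m) := by
  rcases Nat.eq_zero_or_pos z with hz | hz
  · subst hz
    have := assemble_sp g m x y (by omega) hM (by rw [hcard]; rfl)
    simpa using this
  · obtain ⟨z', rfl⟩ : ∃ z', z = z' + 1 := ⟨z - 1, by omega⟩
    have r := real2_2 m m (m - 2) (by omega) (by omega) (by omega) (by omega) (by omega)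
    have k := key_of_real g m 1 2 2 _ _ z' y x hM r (by
      rw [hcard]; congr 1; omega)
    have e1 : m + z' * m = 0 + (z' + 1) * m := by ring
    rw [e1] at k
    exact k.symm

theorem key_main {A : Type*} [AddCommGroup A] [Finite A] (h₁ h₂ h₃ : ℕ)
    (hcard : Nat.card A = h₁ + h₂ + h₃ + 3) (hexp : 5 ≤ AddMonoid.exponent A)
    (hexc : ¬ Exceptional (AddMonoid.exponent A) h₁ h₂ h₃) : Key A h₁ h₃ := by
  obtain ⟨g, hg⟩ := AddMonoid.exists_addOrderOf_eq_exponent
    (AddMonoid.ExponentExists.of_finite (G := A))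
  generalize hm : AddMonoid.exponent A = m at *
  have hdvd : m ∣ h₁ + h₂ + h₃ + 3 := by
    rw [← hcard, ← hg]; exact addOrderOf_dvd_natCard g
  obtain ⟨x, α, h1, hα⟩ : ∃ x α, h₁ = α + x * m ∧ α < m :=
    ⟨h₁ / m, h₁ % m, by rw [mul_comm]; exact (Nat.mod_add_div h₁ m).symm, Nat.mod_lt _ (by omega)⟩
  obtain ⟨y, β, h2, hβ⟩ : ∃ y β, h₂ = β + y * m ∧ β < m :=
    ⟨h₂ / m, h₂ % m, by rw [mul_comm]; exact (Nat.mod_add_div h₂ m).symm, Nat.mod_lt _ (by omega)⟩
  obtain ⟨z, γ, h3, hγ⟩ : ∃ z γ, h₃ = γ + z * m ∧ γ < m :=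
    ⟨h₃ / m, h₃ % m, by rw [mul_comm]; exact (Nat.mod_add_div h₃ m).symm, Nat.mod_lt _ (by omega)⟩
  have e1 : h₁ % m = α := by rw [h1, Nat.add_mul_mod_self_right, Nat.mod_eq_of_lt hα]
  have e2 : h₂ % m = β := by rw [h2, Nat.add_mul_mod_self_right, Nat.mod_eq_of_lt hβ]
  have e3 : h₃ % m = γ := by rw [h3, Nat.add_mul_mod_self_right, Nat.mod_eq_of_lt hγ]
  have hdvd' : m ∣ α + β + γ + 3 := by
    have : h₁ + h₂ + h₃ + 3 = (α + β + γ + 3) + (x + y + z) * m := by rw [h1, h2, h3]; ring
    rw [this] at hdvd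
    exact (Nat.dvd_add_left (Dvd.intro_left _ rfl)).1 hdvd
  obtain ⟨q, hq⟩ := hdvd'
  have hq' : q = 1 ∨ q = 2 ∨ q = 3 := by
    have l1 : 0 < q := by
      rcases Nat.eq_zero_or_pos q with h | h
      · subst h; omega
      · exact h
    have l2 : q < 4 := by
      by_contra h
      have : m * 4 ≤ m * q := Nat.mul_le_mul_left m (by omega)
      omega
    omega
  have hcard' : Nat.card A = (q + x + y + z) * m := by
    rw [hcard, h1, h2, h3]
    calc α + x * m + (β + y * m) + (γ + z * m) + 3 = (α + β + γ + 3) + (x + y + z) * m := by ring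
      _ = (q + x + y + z) * m := by rw [hq]; ring
  unfold Exceptional at hexc
  rw [e1, e2, e3] at hexc
  have hy0 : ∀ b, b < m → (h₂ = b ↔ y = 0 ∧ β = b) := by
    intro b hb
    rw [h2]
    constructor
    · intro h
      rcases Nat.eq_zero_or_pos y with hy | hy
      · subst hy; simpa using h
      · exfalso
        have : 1 * m ≤ y * m := Nat.mul_le_mul_right m hy
        omega
    · rintro ⟨rfl, rfl⟩; simp
  rw [hy0 0 (by omega), hy0 1 (by omega)] at hexc
  rw [h1, h3]
  rcases hq' with rfl | rfl | rfl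
  · have r : Real m (γ + 1) (β + γ + 2) 0 α γ :=
      ⟨α, γ, 0, 0, spc1 m α γ β (by omega), Multi.zero, rfl, rfl⟩
    exact key_of_real g m _ _ 0 _ _ x y z hg r (by rw [hcard'])
  · by_cases cA : γ ≤ β ∧ m ≤ α + 2 * γ ∧ (1 ≤ α ∨ m % 2 = 0)
    · exact key_of_real g m _ _ 1 _ _ x y z hg
        (real2_1 m α γ (by omega) (by omega) cA.2.1 (by omega) cA.2.2) (by rw [hcard'])
    by_cases cB : α ≤ β ∧ m ≤ γ + 2 * α ∧ (1 ≤ γ ∨ m % 2 = 0)
    · exact (key_of_real g m _ _ 1 _ _ z y x hg
        (real2_1 m γ α (by omega) (by omega) cB.2.1 (by omega) cB.2.2)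
        (by rw [hcard']; congr 1; omega)).symm
    by_cases cC : α = γ
    · subst cC
      exact key_of_real g m _ _ 1 _ _ x y z hg (real_neg m α (by omega) (by omega))
        (by rw [hcard'])
    by_cases cD : β < α ∧ β < γ
    · rcases Nat.lt_or_gt_of_ne cC with hlt | hlt
      · exact key_low g m α γ β x y z hg hexp (by omega) hlt hγ cD.1 (by omega) (by omega) hcard'
      · exact (key_low g m γ α β z y x hg hexp (by omega) hlt hα cD.2 (by omega) (by omega)
          (by rw [hcard']; congr 1; omega)).symm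
    · have hsp : (α = m - 2 ∧ γ = 0) ∨ (α = 0 ∧ γ = m - 2) := by
        clear hcard' hy0 hm hcard hdvd h1 h2 h3 e1 e2 e3
        rcases Nat.lt_or_gt_of_ne cC with hlt | hlt
        · right
          have k1 : α ≤ β := by omega
          have k2 : ¬ (m ≤ γ + 2 * α) := fun h => cB ⟨k1, h, Or.inl (by omega)⟩
          have k3 : α ≤ 1 := by omega
          have k4 : α = 0 ∨ α = 1 := by omega
          rcases k4 with rfl | rfl
          · have k5 : γ = m - 2 ∨ γ = m - 1 := by omega
            rcases k5 with k5 | k5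
            · exact ⟨rfl, k5⟩
            · exfalso; apply hexc; left; omega
          · exfalso
            apply cA
            omega
        · left
          have k1 : γ ≤ β := by omega
          have k2 : ¬ (m ≤ α + 2 * γ) := fun h => cA ⟨k1, h, Or.inl (by omega)⟩
          have k3 : γ ≤ 1 := by omega
          have k4 : γ = 0 ∨ γ = 1 := by omega
          rcases k4 with rfl | rfl
          · have k5 : α = m - 2 ∨ α = m - 1 := by omega
            rcases k5 with k5 | k5
            · exact ⟨k5, rfl⟩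
            · exfalso; apply hexc; left; omega
          · exfalso
            apply cB
            omega
      rcases hsp with ⟨k1, k2⟩ | ⟨k1, k2⟩
      · rw [k1, k2]
        exact key_sp g m x y z hg hexp hcard'
      · rw [k1, k2]
        exact (key_sp g m z y x hg hexp (by rw [hcard']; congr 1; omega)).symm
  · have k1 : α = m - 1 := by omega
    have k2 : γ = m - 1 := by omega
    rw [k1, k2]
    exact key_of_real g m _ _ 2 _ _ x y z hg
      (real2_2 m (m - 1) (m - 1) (by omega) (by omega) (by omega) (by omega) (by omega))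
      (by rw [hcard'])

/-- **Main theorem.**  Let `A` be a finite abelian group of exponent `m ≥ 5` and let
`T ≅ C(h₁,h₂,h₃)` have order `|A|`.  Then `T` is `A`-rainbow unless one of the three exceptional
conditions holds. -/
theorem result {V A : Type*} [AddCommGroup A] [Finite A] (T : SimpleGraph V) (h₁ h₂ h₃ : ℕ)
    (hT : Nonempty (T ≃g caterpillar h₁ h₂ h₃)) (hcard : Nat.card A = h₁ + h₂ + h₃ + 3)
    (hexp : 5 ≤ AddMonoid.exponent A)
    (hexc : ¬ Exceptional (AddMonoid.exponent A) h₁ h₂ h₃) :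
    ∃ f : V → A, IsRainbowLabeling T f := by
  obtain ⟨φ⟩ := hT
  obtain ⟨f, hf1, hf2⟩ := rainbow_of_key (key_main h₁ h₂ h₃ hcard hexp hexc) hcard
  refine ⟨fun v => f (φ v), hf1.comp φ.bijective, ?_⟩
  intro u v u' v' h h' he
  have := hf2 (φ u) (φ v) (φ u') (φ v') (φ.map_adj_iff.2 h) (φ.map_adj_iff.2 h') he
  rw [Sym2.eq_iff] at this ⊢
  rcases this with ⟨h1, h2⟩ | ⟨h1, h2⟩
  · exact Or.inl ⟨φ.injective h1, φ.injective h2⟩
  · exact Or.inr ⟨φ.injective h1, φ.injective h2⟩

end Pool.Agent.Results.MP_b97a60_co.SpineThree
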